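import Mathlib

/-!
# An inside-out polytope whose period ratio `r_0 / r_1` is `1/2`
-/

namespace Pool.Agent.Results.MP_76d2cf_co.RatioOneHalf

open Set Topology

/-- `P` is a rational convex polytope in `R^d`: the convex hull of finitely many (at least one)
rational points. -/
def IsRationalPolytope {d : ℕ} (P : Set (Fin d → ℝ)) : Prop :=
  ∃ V : Finset (Fin d → ℚ), V.Nonempty ∧
    P = convexHull ℝ ((fun (v : Fin d → ℚ) (i : Fin d) => (v i : ℝ)) '' (V : Set (Fin d → ℚ)))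

/-- `h` is a rational hyperplane in `R^d`. -/
def IsRationalHyperplane {d : ℕ} (h : Set (Fin d → ℝ)) : Prop :=
  ∃ (a : Fin d → ℚ) (b : ℚ), a ≠ 0 ∧ h = {x | ∑ i, (a i : ℝ) * x i = (b : ℝ)}

/-- The dimension of `P`. -/
noncomputable def dimension {d : ℕ} (P : Set (Fin d → ℝ)) : ℕ :=
  Module.finrank ℝ (vectorSpan ℝ P)

/-- `(P, H)` is an inside-out polytope: `P` is a rational polytope of dimension at least one, `H` is
a finite set of rational hyperplanes, none containing `P`, and every nonempty intersection of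
members of `H` that meets `P` meets the relative interior of `P`. -/
def IsInsideOutPolytope {d : ℕ} (P : Set (Fin d → ℝ)) (H : Set (Set (Fin d → ℝ))) : Prop :=
  IsRationalPolytope P ∧ 1 ≤ dimension P ∧ H.Finite ∧ (∀ h ∈ H, IsRationalHyperplane h) ∧
  (∀ h ∈ H, ¬ P ⊆ h) ∧
  (∀ S ⊆ H, (⋂₀ S ∩ P).Nonempty → (⋂₀ S ∩ intrinsicInterior ℝ P).Nonempty)

/-- The points of `(1/t) Z^d`. -/
def fracLattice (d t : ℕ) : Set (Fin d → ℝ) := {x | ∀ i, ∃ m : ℤ, x i = (m : ℝ) / (t : ℝ)}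

/-- `E°(t)`: the number of points of `(1/t) Z^d` in the relative interior of `P` lying on no member
of `H`. -/
noncomputable def Eopen {d : ℕ} (P : Set (Fin d → ℝ)) (H : Set (Set (Fin d → ℝ))) (t : ℕ) : ℕ :=
  ((intrinsicInterior ℝ P \ ⋃₀ H) ∩ fracLattice d t).ncard

/-- `E^w(t)`: the number of points of `(1/t) Z^d` in the relative interior of `P`. -/
noncomputable def Ewhole {d : ℕ} (P : Set (Fin d → ℝ)) (t : ℕ) : ℕ :=
  (intrinsicInterior ℝ P ∩ fracLattice d t).ncard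

/-- `c` is the family of coefficient functions of the quasipolynomial `E` of degree `δ`: each
`c k` is a periodic function of `t`, and `E(t) = ∑_{k ≤ δ} c_k(t) t^k` for all `t ≥ 1`. -/
def IsCoefficients (δ : ℕ) (E : ℕ → ℕ) (c : ℕ → ℕ → ℚ) : Prop :=
  (∀ k, ∃ n, 0 < n ∧ ∀ t, c k (t + n) = c k t) ∧
  ∀ t, 1 ≤ t → (E t : ℚ) = ∑ k ∈ Finset.range (δ + 1), c k t * (t : ℚ) ^ k

/-- The minimal period of a periodic function. -/
noncomputable def minPeriod (f : ℕ → ℚ) : ℕ := sInf {n | 0 < n ∧ ∀ t, f (t + n) = f t}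

/-! ### The example -/

/-- the triangle with vertices `(-2,0), (2,0), (1,1/2)` -/
def VT : Finset (Fin 2 → ℚ) := {![-2, 0], ![2, 0], ![1, 1/2]}

/-- the triangle -/
def PT : Set (Fin 2 → ℝ) :=
  convexHull ℝ ((fun (v : Fin 2 → ℚ) (i : Fin 2) => (v i : ℝ)) '' (VT : Set (Fin 2 → ℚ)))

/-- the line `x = 2 y` -/
def hT : Set (Fin 2 → ℝ) := {x | ∑ i, ((![1, -2] : Fin 2 → ℚ) i : ℝ) * x i = ((0 : ℚ) : ℝ)}

lemma mem_hT (x : Fin 2 → ℝ) : x ∈ hT ↔ x 0 = 2 * x 1 := by
  unfold hT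
  rw [Set.mem_ofPred_eq, Fin.sum_univ_two]
  simp only [Matrix.cons_val_zero, Matrix.cons_val_one]
  push_cast
  constructor <;> intro h <;> linarith

/-- inequality description -/
def PI : Set (Fin 2 → ℝ) := {x | 0 ≤ x 1 ∧ x 0 + 2 * x 1 ≤ 2 ∧ 6 * x 1 ≤ x 0 + 2}

lemma PT_eq : PT = PI := by
  apply Subset.antisymm
  · unfold PT
    refine convexHull_min ?_ ?_
    · rintro x ⟨v, hv, rfl⟩
      simp only [VT, Finset.coe_insert, Finset.coe_singleton, mem_insert_iff,
        mem_singleton_iff] at hv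
      rcases hv with rfl | rfl | rfl
      · refine ⟨?_, ?_, ?_⟩ <;> norm_num
      · refine ⟨?_, ?_, ?_⟩ <;> norm_num
      · refine ⟨?_, ?_, ?_⟩ <;> norm_num
    · intro x hx y hy a b ha hb hab
      obtain ⟨h1, h2, h3⟩ := hx
      obtain ⟨k1, k2, k3⟩ := hy
      refine ⟨?_, ?_, ?_⟩
      · simp only [Pi.add_apply, Pi.smul_apply, smul_eq_mul]
        positivity
      · simp only [Pi.add_apply, Pi.smul_apply, smul_eq_mul]
        have e1 := mul_le_mul_of_nonneg_left h2 ha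
        have e2 := mul_le_mul_of_nonneg_left k2 hb
        nlinarith
      · simp only [Pi.add_apply, Pi.smul_apply, smul_eq_mul]
        have e1 := mul_le_mul_of_nonneg_left h3 ha
        have e2 := mul_le_mul_of_nonneg_left k3 hb
        nlinarith
  · rintro x ⟨h1, h2, h3⟩
    -- x = l1 (-2,0) + l2 (2,0) + l3 (1,1/2)
    have e : x = ((2 - x 0 - 2 * x 1) / 4) • (fun i => (((![-2, 0] : Fin 2 → ℚ) i : ℚ) : ℝ)) +
        ((2 + x 0 - 6 * x 1) / 4) • (fun i => (((![2, 0] : Fin 2 → ℚ) i : ℚ) : ℝ)) +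
        (2 * x 1) • (fun i => (((![1, 1/2] : Fin 2 → ℚ) i : ℚ) : ℝ)) := by
      funext i
      fin_cases i
      · simp
        ring
      · simp
        ring
    rw [e]
    have hc := convex_convexHull ℝ
      ((fun (v : Fin 2 → ℚ) (i : Fin 2) => (v i : ℝ)) '' (VT : Set (Fin 2 → ℚ)))
    have m1 : (fun i => (((![-2, 0] : Fin 2 → ℚ) i : ℚ) : ℝ)) ∈ PT :=
      subset_convexHull ℝ _ ⟨![-2, 0], by simp [VT], rfl⟩
    have m2 : (fun i => (((![2, 0] : Fin 2 → ℚ) i : ℚ) : ℝ)) ∈ PT :=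
      subset_convexHull ℝ _ ⟨![2, 0], by simp [VT], rfl⟩
    have m3 : (fun i => (((![1, 1/2] : Fin 2 → ℚ) i : ℚ) : ℝ)) ∈ PT :=
      subset_convexHull ℝ _ ⟨![1, 1/2], by simp [VT], rfl⟩
    have h := hc.sum_mem (t := (Finset.univ : Finset (Fin 3)))
      (w := ![((2 - x 0 - 2 * x 1) / 4), ((2 + x 0 - 6 * x 1) / 4), (2 * x 1)])
      (z := ![(fun i => (((![-2, 0] : Fin 2 → ℚ) i : ℚ) : ℝ)),
        (fun i => (((![2, 0] : Fin 2 → ℚ) i : ℚ) : ℝ)),
        (fun i => (((![1, 1/2] : Fin 2 → ℚ) i : ℚ) : ℝ))]) ?_ ?_ ?_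
    · rw [Fin.sum_univ_three] at h
      exact h
    · intro i _
      fin_cases i
      · simp; linarith
      · simp; linarith
      · simp; linarith
    · rw [Fin.sum_univ_three]
      simp
      ring
    · intro i _
      fin_cases i
      · exact m1
      · exact m2
      · exact m3

/-- the open triangle -/
def PO : Set (Fin 2 → ℝ) := {x | 0 < x 1 ∧ x 0 + 2 * x 1 < 2 ∧ 6 * x 1 < x 0 + 2}

theorem pos_of_mem_interior {E : Type*} [NormedAddCommGroup E] [NormedSpace ℝ E] (C : Set E)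
    (l : E →ₗ[ℝ] ℝ) (k : ℝ) (h : ∀ z ∈ C, k ≤ l z) (e : E) (he : 0 < l e) (z : E)
    (hz : z ∈ interior C) : k < l z := by
  have hcont : Filter.Tendsto (fun t : ℝ => z - t • e) (𝓝 0) (𝓝 (z - (0 : ℝ) • e)) := by
    apply Continuous.tendsto
    fun_prop
  rw [zero_smul, sub_zero] at hcont
  have hev : ∀ᶠ t : ℝ in 𝓝 0, z - t • e ∈ C :=
    hcont.eventually (mem_interior_iff_mem_nhds.1 hz)
  have hev' : ∀ᶠ t : ℝ in 𝓝[>] 0, z - t • e ∈ C := hev.filter_mono nhdsWithin_le_nhds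
  obtain ⟨t, ht, ht0⟩ := (hev'.and self_mem_nhdsWithin).exists
  have := h _ ht
  rw [map_sub, map_smul, smul_eq_mul] at this
  have h2 : 0 < t * l e := mul_pos ht0 he
  linarith

lemma interior_PT : interior PT = PO := by
  rw [PT_eq]
  apply Subset.antisymm
  · intro z hz
    refine ⟨?_, ?_, ?_⟩
    · have := pos_of_mem_interior PI (LinearMap.proj (1 : Fin 2) : (Fin 2 → ℝ) →ₗ[ℝ] ℝ) 0
        (fun y hy => hy.1) ![0, 1] (by simp) z hz
      simpa using this
    · have := pos_of_mem_interior PI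
        (-((LinearMap.proj (0 : Fin 2) : (Fin 2 → ℝ) →ₗ[ℝ] ℝ) +
          (2 : ℝ) • LinearMap.proj (1 : Fin 2))) (-2) (fun y hy => ?_) ![-1, 0] (by simp) z hz
      · simp only [LinearMap.neg_apply, LinearMap.add_apply, LinearMap.smul_apply,
          LinearMap.proj_apply, smul_eq_mul] at this
        linarith
      · have := hy.2.1
        simp only [LinearMap.neg_apply, LinearMap.add_apply, LinearMap.smul_apply,
          LinearMap.proj_apply, smul_eq_mul]
        linarith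
    · have := pos_of_mem_interior PI
        ((LinearMap.proj (0 : Fin 2) : (Fin 2 → ℝ) →ₗ[ℝ] ℝ) -
          (6 : ℝ) • LinearMap.proj (1 : Fin 2)) (-2) (fun y hy => ?_) ![1, 0] (by simp) z hz
      · simp only [LinearMap.sub_apply, LinearMap.smul_apply,
          LinearMap.proj_apply, smul_eq_mul] at this
        linarith
      · have := hy.2.2
        simp only [LinearMap.sub_apply, LinearMap.smul_apply,
          LinearMap.proj_apply, smul_eq_mul]
        linarith
  · apply interior_maximal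
    · rintro z ⟨h1, h2, h3⟩
      exact ⟨h1.le, h2.le, h3.le⟩
    · have : PO = {x : Fin 2 → ℝ | 0 < x 1} ∩ ({x | x 0 + 2 * x 1 < 2} ∩
          {x | 6 * x 1 < x 0 + 2}) := rfl
      rw [this]
      exact (isOpen_lt (by fun_prop) (by fun_prop)).inter
        ((isOpen_lt (by fun_prop) (by fun_prop)).inter (isOpen_lt (by fun_prop) (by fun_prop)))

lemma PO_nonempty : (interior PT).Nonempty := by
  rw [interior_PT]
  exact ⟨![0, 1/8], by refine ⟨?_, ?_, ?_⟩ <;> norm_num⟩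

lemma intrinsic_PT : intrinsicInterior ℝ PT = PO := by
  rw [← interior_PT]
  apply Subset.antisymm
  · have hspan : affineSpan ℝ PT = ⊤ := affineSpan_eq_top_of_nonempty_interior
      (PO_nonempty.mono (interior_mono (subset_convexHull ℝ _)))
    apply interior_maximal intrinsicInterior_subset
    unfold intrinsicInterior
    have ho : IsOpen ((affineSpan ℝ PT : AffineSubspace ℝ (Fin 2 → ℝ)) : Set (Fin 2 → ℝ)) := by
      rw [hspan]
      exact isOpen_univ
    exact ho.isOpenMap_subtype_val _ isOpen_interior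
  · exact interior_subset_intrinsicInterior

lemma dimension_PT : dimension PT = 2 := by
  unfold dimension
  have hspan : affineSpan ℝ PT = ⊤ := affineSpan_eq_top_of_nonempty_interior
    (PO_nonempty.mono (interior_mono (subset_convexHull ℝ _)))
  rw [AffineSubspace.vectorSpan_eq_top_of_affineSpan_eq_top ℝ (Fin 2 → ℝ) (Fin 2 → ℝ) hspan]
  simp

lemma insideOut : IsInsideOutPolytope PT {hT} := by
  refine ⟨⟨VT, ⟨![-2, 0], by simp [VT]⟩, rfl⟩, by rw [dimension_PT]; norm_num,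
    Set.finite_singleton _, ?_, ?_, ?_⟩
  · intro h hh
    rw [Set.mem_singleton_iff] at hh
    subst hh
    refine ⟨![1, -2], 0, ?_, rfl⟩
    intro h0
    have := congrFun h0 0
    simp at this
  · intro h hh hsub
    rw [Set.mem_singleton_iff] at hh
    subst hh
    have h1 : (![2, 0] : Fin 2 → ℝ) ∈ PT := by
      rw [PT_eq]; refine ⟨?_, ?_, ?_⟩ <;> norm_num
    have := (mem_hT _).1 (hsub h1)
    norm_num at this
  · intro S hS _
    refine ⟨![1/2, 1/4], ?_, ?_⟩
    · rw [Set.mem_sInter]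
      intro h hh
      have := hS hh
      rw [Set.mem_singleton_iff] at this
      subst this
      rw [mem_hT]
      norm_num
    · rw [intrinsic_PT]
      refine ⟨?_, ?_, ?_⟩ <;> norm_num

/-! ### Counting -/

/-- the point `(a/t, b/t)` -/
noncomputable def pt (t : ℕ) (p : ℤ × ℤ) : Fin 2 → ℝ := ![(p.1 : ℝ) / t, (p.2 : ℝ) / t]

lemma pt_inj (t : ℕ) (ht : 1 ≤ t) : Function.Injective (pt t) := by
  intro p q h
  have ht' : (t : ℝ) ≠ 0 := by positivity
  have h0 : (p.1 : ℝ) / t = (q.1 : ℝ) / t := congrFun h 0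
  have h1 : (p.2 : ℝ) / t = (q.2 : ℝ) / t := congrFun h 1
  rw [div_left_inj' ht'] at h0 h1
  exact Prod.ext (by exact_mod_cast h0) (by exact_mod_cast h1)

lemma pt_mem (t : ℕ) (ht : 1 ≤ t) (p : ℤ × ℤ) : pt t p ∈ PO ↔
    (0 < p.2 ∧ p.1 + 2 * p.2 < 2 * t ∧ 6 * p.2 < p.1 + 2 * t) := by
  have ht' : (0 : ℝ) < t := by exact_mod_cast ht
  have e0 : pt t p 0 = (p.1 : ℝ) / t := rfl
  have e1 : pt t p 1 = (p.2 : ℝ) / t := rfl
  constructor
  · rintro ⟨h1, h2, h3⟩
    rw [e1] at h1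
    rw [e0, e1] at h2 h3
    refine ⟨?_, ?_, ?_⟩
    · have : (0 : ℝ) < p.2 := by
        have := mul_pos h1 ht'
        rwa [div_mul_cancel₀ _ ht'.ne'] at this
      exact_mod_cast this
    · have e : (p.1 : ℝ) / t + 2 * ((p.2 : ℝ) / t) = (p.1 + 2 * p.2) / t := by ring
      rw [e, div_lt_iff₀ ht'] at h2
      exact_mod_cast h2
    · have e : 6 * ((p.2 : ℝ) / t) - (p.1 : ℝ) / t = (6 * p.2 - p.1) / t := by ring
      have h4 : 6 * ((p.2 : ℝ) / t) - (p.1 : ℝ) / t < 2 := by linarith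
      rw [e, div_lt_iff₀ ht'] at h4
      have h5 : 6 * (p.2 : ℝ) < p.1 + 2 * t := by linarith
      exact_mod_cast h5
  · rintro ⟨h1, h2, h3⟩
    have h1' : (0 : ℝ) < p.2 := by exact_mod_cast h1
    have h2' : (p.1 : ℝ) + 2 * p.2 < 2 * t := by exact_mod_cast h2
    have h3' : 6 * (p.2 : ℝ) < p.1 + 2 * t := by exact_mod_cast h3
    refine ⟨?_, ?_, ?_⟩
    · rw [e1]; positivity
    · rw [e0, e1]
      have e : (p.1 : ℝ) / t + 2 * ((p.2 : ℝ) / t) = (p.1 + 2 * p.2) / t := by ring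
      rw [e, div_lt_iff₀ ht']
      linarith
    · rw [e0, e1]
      have e : 6 * ((p.2 : ℝ) / t) - (p.1 : ℝ) / t = (6 * p.2 - p.1) / t := by ring
      have h4 : 6 * ((p.2 : ℝ) / t) - (p.1 : ℝ) / t < 2 := by
        rw [e, div_lt_iff₀ ht']; linarith
      linarith

lemma pt_mem_hT (t : ℕ) (ht : 1 ≤ t) (p : ℤ × ℤ) : pt t p ∈ hT ↔ p.1 = 2 * p.2 := by
  have ht' : (0 : ℝ) < t := by exact_mod_cast ht
  rw [mem_hT]
  have e0 : pt t p 0 = (p.1 : ℝ) / t := rfl
  have e1 : pt t p 1 = (p.2 : ℝ) / t := rfl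
  rw [e0, e1]
  have e : 2 * ((p.2 : ℝ) / t) = (2 * p.2) / t := by ring
  rw [e, div_left_inj' ht'.ne']
  constructor
  · intro h; exact_mod_cast h
  · intro h; exact_mod_cast h

lemma exists_pt (t : ℕ) (x : Fin 2 → ℝ) (hx : x ∈ fracLattice 2 t) : ∃ p, pt t p = x := by
  obtain ⟨a, ha⟩ := hx 0
  obtain ⟨b, hb⟩ := hx 1
  refine ⟨(a, b), ?_⟩
  funext i
  fin_cases i
  · exact ha.symm
  · exact hb.symm

lemma pt_frac (t : ℕ) (p : ℤ × ℤ) : pt t p ∈ fracLattice 2 t := by
  intro i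
  fin_cases i
  · exact ⟨p.1, rfl⟩
  · exact ⟨p.2, rfl⟩

/-- lattice points of the dilated open triangle, row by row -/
noncomputable def FW (t : ℕ) : Finset (Σ _ : ℕ, ℤ) :=
  (Finset.Icc 1 ((t - 1) / 2)).sigma (fun b => Finset.Ioo (6 * (b : ℤ) - 2 * t) (2 * t - 2 * b))

/-- the same with the line removed -/
noncomputable def FO (t : ℕ) : Finset (Σ _ : ℕ, ℤ) :=
  (Finset.Icc 1 ((t - 1) / 2)).sigma
    (fun b => (Finset.Ioo (6 * (b : ℤ) - 2 * t) (2 * t - 2 * b)).erase (2 * b))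

/-- parametrisation -/
noncomputable def par (t : ℕ) (q : Σ _ : ℕ, ℤ) : Fin 2 → ℝ := pt t (q.2, (q.1 : ℤ))

lemma par_inj (t : ℕ) (ht : 1 ≤ t) : Function.Injective (par t) := by
  rintro ⟨b, a⟩ ⟨b', a'⟩ h
  have h1 := pt_inj t ht h
  simp only [Prod.mk.injEq, Nat.cast_inj] at h1
  obtain ⟨rfl, rfl⟩ := h1
  rfl

lemma Ewhole_eq (t : ℕ) (ht : 1 ≤ t) : Ewhole PT t = (FW t).card := by
  unfold Ewhole
  rw [intrinsic_PT]
  have himg : PO ∩ fracLattice 2 t = par t '' (FW t : Set (Σ _ : ℕ, ℤ)) := by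
    ext x
    constructor
    · rintro ⟨h1, h2⟩
      obtain ⟨⟨a, b⟩, rfl⟩ := exists_pt t x h2
      rw [pt_mem t ht] at h1
      simp only at h1
      refine ⟨⟨b.toNat, a⟩, ?_, ?_⟩
      · rw [Finset.mem_coe, FW, Finset.mem_sigma]
        simp only [Finset.mem_Icc, Finset.mem_Ioo]
        omega
      · unfold par
        simp only
        rw [Int.toNat_of_nonneg h1.1.le]
    · rintro ⟨⟨b, a⟩, h, rfl⟩
      rw [Finset.mem_coe, FW, Finset.mem_sigma] at h
      simp only [Finset.mem_Icc, Finset.mem_Ioo] at h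
      refine ⟨?_, pt_frac _ _⟩
      unfold par
      rw [pt_mem t ht]
      simp only
      omega
  rw [himg, Set.InjOn.ncard_image (par_inj t ht).injOn, Set.ncard_coe_finset]

lemma Eopen_eq (t : ℕ) (ht : 1 ≤ t) : Eopen PT {hT} t = (FO t).card := by
  unfold Eopen
  rw [intrinsic_PT, Set.sUnion_singleton]
  have himg : (PO \ hT) ∩ fracLattice 2 t = par t '' (FO t : Set (Σ _ : ℕ, ℤ)) := by
    ext x
    constructor
    · rintro ⟨⟨h1, h3⟩, h2⟩
      obtain ⟨⟨a, b⟩, rfl⟩ := exists_pt t x h2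
      rw [pt_mem t ht] at h1
      rw [pt_mem_hT t ht] at h3
      simp only at h1 h3
      refine ⟨⟨b.toNat, a⟩, ?_, ?_⟩
      · rw [Finset.mem_coe, FO, Finset.mem_sigma]
        simp only [Finset.mem_Icc, Finset.mem_Ioo, Finset.mem_erase]
        omega
      · unfold par
        simp only
        rw [Int.toNat_of_nonneg h1.1.le]
    · rintro ⟨⟨b, a⟩, h, rfl⟩
      rw [Finset.mem_coe, FO, Finset.mem_sigma] at h
      simp only [Finset.mem_Icc, Finset.mem_Ioo, Finset.mem_erase] at h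
      refine ⟨⟨?_, ?_⟩, pt_frac _ _⟩
      · unfold par
        rw [pt_mem t ht]
        simp only
        omega
      · unfold par
        rw [pt_mem_hT t ht]
        simp only
        omega
  rw [himg, Set.InjOn.ncard_image (par_inj t ht).injOn, Set.ncard_coe_finset]

lemma sum_lin (t : ℚ) (e : ℚ) (m : ℕ) :
    ∑ b ∈ Finset.Icc 1 m, (4 * t - 8 * (b : ℚ) - e) = m * (4 * t - e) - 4 * m * (m + 1) := by
  induction m with
  | zero => simp
  | succ m ih =>
    rw [Finset.sum_Icc_succ_top (by omega), ih]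
    push_cast
    ring

lemma FW_card (t : ℕ) (ht : 1 ≤ t) : ((FW t).card : ℚ) =
    (((t - 1) / 2 : ℕ) : ℚ) * (4 * t - 1) - 4 * (((t - 1) / 2 : ℕ) : ℚ) *
      ((((t - 1) / 2 : ℕ) : ℚ) + 1) := by
  rw [← sum_lin, FW, Finset.card_sigma]
  push_cast
  refine Finset.sum_congr rfl ?_
  intro b hb
  rw [Finset.mem_Icc] at hb
  rw [Int.card_Ioo]
  have h : ((2 * (t : ℤ) - 2 * b - (6 * (b : ℤ) - 2 * t) - 1).toNat : ℤ) = 4 * t - 8 * b - 1 := by
    omega
  have h2 := congrArg (fun z : ℤ => (z : ℚ)) h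
  push_cast at h2
  exact_mod_cast h2

lemma FO_card (t : ℕ) (ht : 1 ≤ t) : ((FO t).card : ℚ) =
    (((t - 1) / 2 : ℕ) : ℚ) * (4 * t - 2) - 4 * (((t - 1) / 2 : ℕ) : ℚ) *
      ((((t - 1) / 2 : ℕ) : ℚ) + 1) := by
  rw [← sum_lin, FO, Finset.card_sigma]
  push_cast
  refine Finset.sum_congr rfl ?_
  intro b hb
  rw [Finset.mem_Icc] at hb
  rw [Finset.card_erase_of_mem (by rw [Finset.mem_Ioo]; omega), Int.card_Ioo]
  generalize hX : ((2 * (t : ℤ) - 2 * b - (6 * (b : ℤ) - 2 * t) - 1).toNat - 1 : ℕ) = X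
  have h : (X : ℤ) = 4 * t - 8 * b - 2 := by
    omega
  have h2 := congrArg (fun z : ℤ => (z : ℚ)) h
  push_cast at h2
  exact h2

/-- coefficients of `E°` -/
def cO : ℕ → ℕ → ℚ
  | 0, _ => 2
  | 1, _ => -3
  | 2, _ => 1
  | _, _ => 0

/-- coefficients of `E^w` -/
def cW : ℕ → ℕ → ℚ
  | 0, t => if t % 2 = 0 then 1 else 3 / 2
  | 1, _ => -5 / 2
  | 2, _ => 1
  | _, _ => 0

lemma coeffs_O : IsCoefficients 2 (Eopen PT {hT}) cO := by
  refine ⟨?_, ?_⟩
  · intro k
    refine ⟨1, one_pos, fun t => ?_⟩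
    match k with
    | 0 => rfl
    | 1 => rfl
    | 2 => rfl
    | (k + 3) => rfl
  · intro t ht
    rw [Eopen_eq t ht, FO_card t ht]
    simp only [Finset.sum_range_succ, Finset.sum_range_zero, cO]
    rcases Nat.even_or_odd' t with ⟨m, rfl | rfl⟩
    · obtain ⟨j, rfl⟩ : ∃ j, m = j + 1 := ⟨m - 1, by omega⟩
      have e : (2 * (j + 1) - 1) / 2 = j := by omega
      rw [e]
      push_cast
      ring
    · have e : (2 * m + 1 - 1) / 2 = m := by omega
      rw [e]
      push_cast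
      ring

lemma coeffs_W : IsCoefficients 2 (Ewhole PT) cW := by
  refine ⟨?_, ?_⟩
  · intro k
    refine ⟨2, two_pos, fun t => ?_⟩
    match k with
    | 0 =>
      simp only [cW, Nat.add_mod_right]
    | 1 => rfl
    | 2 => rfl
    | (k + 3) => rfl
  · intro t ht
    rw [Ewhole_eq t ht, FW_card t ht]
    simp only [Finset.sum_range_succ, Finset.sum_range_zero, cW]
    rcases Nat.even_or_odd' t with ⟨m, rfl | rfl⟩
    · obtain ⟨j, rfl⟩ : ∃ j, m = j + 1 := ⟨m - 1, by omega⟩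
      have e : (2 * (j + 1) - 1) / 2 = j := by omega
      rw [e, if_pos (by omega)]
      push_cast
      ring
    · have e : (2 * m + 1 - 1) / 2 = m := by omega
      rw [e, if_neg (by omega)]
      push_cast
      ring

lemma minPeriod_const (f : ℕ → ℚ) (hf : ∀ t, f (t + 1) = f t) : minPeriod f = 1 := by
  unfold minPeriod
  have h1 : 1 ∈ {n | 0 < n ∧ ∀ t, f (t + n) = f t} := ⟨one_pos, hf⟩
  have h2 := Nat.sInf_le h1
  have h3 := (Nat.sInf_mem ⟨1, h1⟩).1
  omega

lemma minPeriod_cW0 : minPeriod (cW 0) = 2 := by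
  unfold minPeriod
  have h1 : 2 ∈ {n | 0 < n ∧ ∀ t, cW 0 (t + n) = cW 0 t} := by
    refine ⟨two_pos, fun t => ?_⟩
    simp only [cW, Nat.add_mod_right]
  have h2 := Nat.sInf_le h1
  have h3 := Nat.sInf_mem ⟨2, h1⟩
  have h4 := h3.1
  have h5 : sInf {n | 0 < n ∧ ∀ t, cW 0 (t + n) = cW 0 t} ≠ 1 := by
    intro h
    rw [h] at h3
    have := h3.2 0
    simp [cW] at this
    norm_num at this
  omega

/-! ### Uniqueness of the coefficient functions -/

lemma period_mul (f : ℕ → ℚ) (n : ℕ) (h : ∀ t, f (t + n) = f t) (q t : ℕ) :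
    f (t + n * q) = f t := by
  induction q with
  | zero => simp
  | succ q ih =>
    rw [Nat.mul_succ, ← add_assoc, h, ih]

lemma unique_coefficients (δ : ℕ) (E : ℕ → ℕ) (c c' : ℕ → ℕ → ℚ)
    (h : IsCoefficients δ E c) (h' : IsCoefficients δ E c') (k : ℕ) (hk : k ≤ δ) (t : ℕ) :
    c k t = c' k t := by
  obtain ⟨hp, hs⟩ := h
  obtain ⟨hp', hs'⟩ := h'
  choose n hn0 hn using hp
  choose n' hn0' hn' using hp'
  let N := ∏ i ∈ Finset.range (δ + 1), n i * n' i
  have hN : 0 < N := Finset.prod_pos (fun i _ => Nat.mul_pos (hn0 i) (hn0' i))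
  have hdvd : ∀ i ≤ δ, n i * n' i ∣ N := fun i hi =>
    Finset.dvd_prod_of_mem (fun i => n i * n' i) (Finset.mem_range.2 (by omega))
  have hc : ∀ i ≤ δ, ∀ j, c i (t + N * j) = c i t := by
    intro i hi j
    obtain ⟨q, hq⟩ := hdvd i hi
    rw [hq, mul_assoc (n i), mul_assoc (n i)]
    exact period_mul _ _ (hn i) _ _
  have hc' : ∀ i ≤ δ, ∀ j, c' i (t + N * j) = c' i t := by
    intro i hi j
    obtain ⟨q, hq⟩ := hdvd i hi
    rw [hq, mul_comm (n i), mul_assoc (n' i), mul_assoc (n' i)]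
    exact period_mul _ _ (hn' i) _ _
  let Q : Polynomial ℚ := ∑ i ∈ Finset.range (δ + 1),
    Polynomial.C (c i t - c' i t) * Polynomial.X ^ i
  have hQ : Q = 0 := by
    apply Polynomial.eq_zero_of_infinite_isRoot
    apply Set.infinite_of_injective_forall_mem (f := fun j : ℕ => (((t + N * (j + 1) : ℕ)) : ℚ))
    · intro a b hab
      simp only [Nat.cast_inj] at hab
      have := Nat.eq_of_mul_eq_mul_left hN (Nat.add_left_cancel hab)
      omega
    · intro j
      rw [Set.mem_ofPred_eq, Polynomial.IsRoot.def]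
      simp only [Q, Polynomial.eval_finsetSum, Polynomial.eval_mul, Polynomial.eval_C,
        Polynomial.eval_pow, Polynomial.eval_X]
      have hpos : 1 ≤ t + N * (j + 1) := by
        have : 0 < N * (j + 1) := Nat.mul_pos hN (by omega)
        omega
      have e1 := hs _ hpos
      have e2 := hs' _ hpos
      rw [e1] at e2
      have e3 : ∑ i ∈ Finset.range (δ + 1), (c i t - c' i t) *
          (((t + N * (j + 1) : ℕ)) : ℚ) ^ i =
          ∑ i ∈ Finset.range (δ + 1), (c i (t + N * (j + 1)) * (((t + N * (j + 1) : ℕ)) : ℚ) ^ i -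
            c' i (t + N * (j + 1)) * (((t + N * (j + 1) : ℕ)) : ℚ) ^ i) := by
        refine Finset.sum_congr rfl ?_
        intro i hi
        have hi' : i ≤ δ := by
          have := Finset.mem_range.1 hi
          omega
        rw [hc i hi', hc' i hi']
        ring
      rw [e3, Finset.sum_sub_distrib, e2, sub_self]
  have hcoef : Q.coeff k = c k t - c' k t := by
    simp only [Q, Polynomial.finsetSum_coeff, Polynomial.coeff_C_mul, Polynomial.coeff_X_pow,
      mul_ite, mul_one, mul_zero]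
    rw [Finset.sum_ite_eq (Finset.range (δ + 1)) k (fun i => c i t - c' i t),
      if_pos (Finset.mem_range.2 (by omega))]
  rw [hQ, Polynomial.coeff_zero] at hcoef
  linarith

/-- The triangle `P` with vertices `(-2,0), (2,0), (1,1/2)` together with the line `x = 2y` is an
inside-out polytope of dimension `2` whose period ratios are `r_0 = 1/2` and `r_1 = 1`; so
`p_1 p_0^w` does not divide `p_0 p_1^w`. (The coefficient functions are unique.) -/
theorem result :
    IsInsideOutPolytope PT {hT} ∧ dimension PT = 2 ∧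
    (∃ c cw : ℕ → ℕ → ℚ, IsCoefficients 2 (Eopen PT {hT}) c ∧ IsCoefficients 2 (Ewhole PT) cw ∧
      minPeriod (c 0) = 1 ∧ minPeriod (c 1) = 1 ∧ minPeriod (cw 0) = 2 ∧ minPeriod (cw 1) = 1) ∧
    (∀ (δ : ℕ) (E : ℕ → ℕ) (c c' : ℕ → ℕ → ℚ), IsCoefficients δ E c → IsCoefficients δ E c' →
      ∀ k ≤ δ, ∀ t, c k t = c' k t) ∧
    ¬ (∀ (d : ℕ) (P : Set (Fin d → ℝ)) (H : Set (Set (Fin d → ℝ))), IsInsideOutPolytope P H →
      ∀ c cw : ℕ → ℕ → ℚ, IsCoefficients (dimension P) (Eopen P H) c →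
        IsCoefficients (dimension P) (Ewhole P) cw → ∀ k, 1 ≤ k → k ≤ dimension P →
          minPeriod (c k) * minPeriod (cw (k - 1)) ∣ minPeriod (c (k - 1)) * minPeriod (cw k)) := by
  have h0 : minPeriod (cO 0) = 1 := minPeriod_const _ (fun _ => rfl)
  have h1 : minPeriod (cO 1) = 1 := minPeriod_const _ (fun _ => rfl)
  have h2 : minPeriod (cW 1) = 1 := minPeriod_const _ (fun _ => rfl)
  refine ⟨insideOut, dimension_PT, ⟨cO, cW, coeffs_O, coeffs_W, h0, h1, minPeriod_cW0, h2⟩,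
    unique_coefficients, ?_⟩
  intro h
  have h3 := h 2 PT {hT} insideOut cO cW (by rw [dimension_PT]; exact coeffs_O)
    (by rw [dimension_PT]; exact coeffs_W) 1 (le_refl 1) (by rw [dimension_PT]; norm_num)
  simp only [Nat.sub_self] at h3
  rw [h0, h1, minPeriod_cW0, h2] at h3
  norm_num at h3

end Pool.Agent.Results.MP_76d2cf_co.RatioOneHalf
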